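import Mathlib
import Pool.Agent.R924.G7

set_option autoImplicit false

/-!
Over every field there is a separated scheme of finite type which is not quasi-affine, while the
thick closure of its structure sheaf consists of all perfect complexes.

The scheme is the blow-up of the affine plane at the origin with one rational point of the
exceptional curve removed, given as an open subscheme of the first Hirzebruch surface.
`isPerfect X` is the class of all objects of the (unbounded) derived category of all modules over
the structure sheaf of `X` which are locally isomorphic to bounded complexes of finite locally free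
modules, `unitMod X` is the structure sheaf as a module over itself, and `triangEnvelope` is the
thick closure (Mathlib).
-/

universe u

open CategoryTheory CategoryTheory.Limits AlgebraicGeometry

namespace Pool.Agent.Results.MP_7fa3bd_ag.NotQuasiAffine

open Pool.Agent.W456 Pool.Agent.R924

attribute [local instance] HasDerivedCategory.standard

theorem result (k : Type u) [Field k] :
    ∃ (X : Scheme.{u}) (π : X ⟶ Spec (CommRingCat.of k)),
      LocallyOfFiniteType π ∧ CompactSpace X ∧ X.IsSeparated ∧ ¬ X.IsQuasiAffine ∧
      (∀ (R : CommRingCat.{u}) (f : X ⟶ Spec R), ¬ IsOpenImmersion f) ∧
      (ObjectProperty.ofObj fun _ : Unit =>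
        (DerivedCategory.singleFunctor X.Modules 0).obj (unitMod X)).triangEnvelope =
        isPerfect X :=
  ⟨(OS k).toScheme, (OS k).ι ≫ pi₁ k, inferInstance, inferInstance, inferInstance,
    not_isQuasiAffine k, fun _ f _ => not_isQuasiAffine k (Scheme.IsQuasiAffine.of_isImmersion f),
    envelope_OS k⟩

end Pool.Agent.Results.MP_7fa3bd_ag.NotQuasiAffine
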